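import Pool.Agent.H2.KM.Defs

/-!
# Targets
-/

set_option autoImplicit false

open Matrix Pool.Agent.H2.NL Pool.Agent.H64.CC

namespace Pool.Agent.H2.KM

/-! ### Tensors with upper and lower places -/

/-- GSW: an exchange changes the pattern. -/
def T_GSW : Prop := ∀ (K : Type) [Field K] (I : Type) (o : I → Bool) (x : List I → List I → K),
  GS o x → ∀ (s : List Bool) (j : ℕ), sw o j (Gp o s x) = Gp o (ex j s) x

/-- GCN: the contraction of the first two places. -/
def T_GCN : Prop := ∀ (K : Type) [Field K] (I : Type) [Fintype I] [DecidableEq I] (F : Form K I)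
  (x : List I → List I → K) (h h' : Bool) (s : List Bool),
  con F.η 0 (Gp F.o (h :: h' :: s) x) = Gp F.o s (pick F h h' x)

/-- BSP: the contractions preserve the symmetry. -/
def T_BSP : Prop := ∀ (K : Type) [Field K] (I : Type) [Fintype I] [DecidableEq I] (F : Form K I)
  (x : List I → List I → K), GS F.o x →
  GS F.o (opA F x) ∧ GS F.o (opB F x) ∧ GS F.o (opC F x)

/-- CMM: the contractions commute. -/
def T_CMM : Prop := ∀ (K : Type) [Field K] (I : Type) [Fintype I] [DecidableEq I] (F : Form K I)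
  (x : List I → List I → K), GS F.o x →
  opA F (opB F x) = opB F (opA F x) ∧ opA F (opC F x) = opC F (opA F x) ∧
  opB F (opC F x) = opC F (opB F x)

/-- TYP: the iterated contraction of a pattern. -/
def T_TYP : Prop := ∀ (K : Type) [Field K] (I : Type) [Fintype I] [DecidableEq I] (F : Form K I)
  (l : ℕ) (x : List I → List I → K), GS F.o x → ∀ s : List Bool, s.length = 2 * l →
  ∃ j i k : ℕ, 2 * j + k = s.count true ∧ 2 * i + k = s.count false ∧
    itc F l (Gp F.o s x) = val F j i k x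

/-- PAT: the patterns `pat s m`. -/
def T_PAT : Prop := ∀ (K : Type) [Field K] (I : Type) [Fintype I] [DecidableEq I] (F : Form K I)
  (s m : ℕ), (pat s m).count true = 2 * s + m ∧ (pat s m).count false = m ∧
    (pat s m).length = 2 * (s + m) ∧
    ∀ x : List I → List I → K, itc F (s + m) (Gp F.o (pat s m) x) = val F s 0 m x

/-- VCB: iterated contractions. -/
def T_VCB : Prop := ∀ (K : Type) [Field K] (I : Type) [Fintype I] [DecidableEq I] (F : Form K I)
  (y : List I → List I → K), GS F.o y → ∀ j i k c b : ℕ,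
  GS F.o ((opC F)^[c] ((opB F)^[b] y)) ∧
  val F j i k ((opC F)^[c] ((opB F)^[b] y)) = val F j (i + b) (k + c) y

/-- RCH: exchanges generate all rearrangements. -/
def T_RCH : Prop := ∀ (α : Type) (s s' : List α), s.Perm s' →
  ∃ js : List ℕ, (∀ j ∈ js, j + 2 ≤ s.length) ∧ exs js s = s'

/-- MEM: classes. -/
def T_MEM : Prop := ∀ (K : Type) [Field K] [CharZero K] (I : Type) [Fintype I] [DecidableEq I]
  (F : Form K I) (A : ℕ → Submodule ℚ (List I → K)), Calc F.o F.η F.ω A →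
  ∀ x : List I → List I → K, GS F.o x →
  (∀ (k : ℕ) (s s' : List Bool), s.Perm s' → s.length = 2 * k → Gp F.o s x ∈ A k →
    Gp F.o s' x ∈ A k) ∧
  (∀ k p q : ℕ, MA F.o (A (k + 1)) (p + 2) q x → MA F.o (A k) p q (opA F x)) ∧
  (∀ k p q : ℕ, MA F.o (A (k + 1)) p (q + 2) x → MA F.o (A k) p q (opB F x)) ∧
  (∀ k p q : ℕ, MA F.o (A (k + 1)) (p + 1) (q + 1) x → MA F.o (A k) p q (opC F x))

/-- MNN: the main induction. -/
def T_MNN : Prop := ∀ (K : Type) [Field K] [CharZero K] (I : Type) [Fintype I] [DecidableEq I]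
  (F : Form K I) (A : ℕ → Submodule ℚ (List I → K)), Calc F.o F.η F.ω A → ∀ l : ℕ, 1 ≤ l →
  (∀ x ∈ A l, Symm F.o (2 * l) x → itc F l x = 0) →
  ∀ y : List I → List I → K, GS F.o y → MA F.o (A (2 * l - 1)) (2 * l - 1) (2 * l - 1) y →
  (opC F)^[2 * l - 1] y [] [] = 0

/-! ### The symmetrizer -/

/-- SEL: selections. -/
def T_SEL : Prop := ∀ (K : Type) [Field K] (I : Type) [Fintype I] (o : I → Bool),
  (∀ w : List I, (sel K o w).length = w.length ∧
    ∀ x ∈ sel K o w, x.1 * x.1 = 1 ∧ (x.2.1 :: x.2.2).Perm w) ∧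
  (∀ (n : ℕ) (h : List I → K), Symm o n h → ∀ w : List I, w.length = n → ∀ x ∈ sel K o w,
    h w = x.1 * h (x.2.1 :: x.2.2)) ∧
  (∀ (n : ℕ) (φ : I → List I → K),
    ∑ w : List.Vector I (n + 1), ((sel K o w.1).map fun x => φ x.2.1 x.2.2).sum =
      (n + 1 : K) * ∑ a, ∑ w : List.Vector I n, φ a w.1)

/-- SYL: `sp o f u v` is symmetric in `v`. -/
def T_SYL : Prop := ∀ (K : Type) [Field K] (I J : Type) (o : J → Bool) (f : Matrix I J K)
  (u : List I) (j : ℕ) (v : List J), sw o j (fun v => sp o f u v) v = sp o f u v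

/-- SYR: `sp o f u v` is symmetric in `u`. -/
def T_SYR : Prop := ∀ (K : Type) [Field K] (I J : Type) (o : J → Bool) (o' : I → Bool)
  (f : Matrix I J K), (∀ a b, f a b ≠ 0 → o' a = o b) →
  ∀ (v : List J) (j : ℕ) (u : List I), sw o' j (fun u => sp o f u v) u = sp o f u v

/-- SPH: the symmetrizer of a symmetric tensor. -/
def T_SPH : Prop := ∀ (K : Type) [Field K] (I : Type) [Fintype I] [DecidableEq I] (o : I → Bool)
  (n : ℕ) (h : List I → K), Symm o n h → ∀ u : List I, u.length = n →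
  ∑ w : List.Vector I n, sp o (1 : Matrix I I K) u w.1 * h w.1 = (n.factorial : K) * h u

/-- OPS: exchanges of places of a tensor of order `2n`, and its operator. -/
def T_OPS : Prop := ∀ (K : Type) [Field K] (I : Type) [Fintype I] [DecidableEq I] (o : I → Bool)
  (η : Matrix I I K), (∀ a b, η a b ≠ 0 → o a = o b) → ∀ (n j : ℕ) (t : List I → K), j + 2 ≤ n →
  op η n (sw o j t) = Px K o n j * op η n t ∧
  op η n (sw o (2 * n - 2 - j) t) = op η n t * Px K o n j

/-- SPZ: the symmetrizer is the operator of a class. -/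
def T_SPZ : Prop := ∀ (K : Type) [Field K] [CharZero K] (I : Type) [Fintype I] [DecidableEq I]
  (o : I → Bool) (η ω : Matrix I I K) (A : ℕ → Submodule ℚ (List I → K)), Calc o η ω A →
  η * ω = 1 → ω * η = 1 → (∀ a b, η a b ≠ 0 → o a = o b) → ∀ n : ℕ,
  Sp o (1 : Matrix I I K) n * Sp o (1 : Matrix I I K) n =
    (n.factorial : K) • Sp o (1 : Matrix I I K) n ∧
  (∀ j : ℕ, Px K o n j * Sp o (1 : Matrix I I K) n = Sp o (1 : Matrix I I K) n ∧
    Sp o (1 : Matrix I I K) n * Px K o n j = Sp o (1 : Matrix I I K) n) ∧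
  ∃ z ∈ A n, op η n z = Sp o 1 n

/-- BSY: an operator which is invariant under exchanges on both sides. -/
def T_BSY : Prop := ∀ (K : Type) [Field K] [CharZero K] (I : Type) [Fintype I] [DecidableEq I]
  (F : Form K I) (A : ℕ → Submodule ℚ (List I → K)), Calc F.o F.η F.ω A → ∀ n : ℕ, ∀ t ∈ A n,
  (∀ j, j + 2 ≤ n → Px K F.o n j * op F.η n t = op F.η n t ∧
    op F.η n t * Px K F.o n j = op F.η n t) →
  ∃ x : List I → List I → K, GS F.o x ∧
    (∀ u v : List I, u.length = n → v.length = n → t (u ++ v) = x u v) ∧ MA F.o (A n) n n x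

/-- TRB: the supertrace is the iterated mixed contraction. -/
def T_TRB : Prop := ∀ (K : Type) [Field K] (I : Type) [Fintype I] [DecidableEq I] (F : Form K I)
  (n : ℕ) (t : List I → K) (x : List I → List I → K), GS F.o x →
  (∀ u v : List I, u.length = n → v.length = n → t (u ++ v) = x u v) →
  ∑ u : List.Vector I n, sgw K F.o u.1 * op F.η n t u u = (opC F)^[n] x [] []

/-- KIM: the symmetrizer is numerically trivial. -/
def T_KIM : Prop := ∀ (K : Type) [Field K] [CharZero K] (I : Type) [Fintype I] [DecidableEq I]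
  (F : Form K I) (A : ℕ → Submodule ℚ (List I → K)), Calc F.o F.η F.ω A → ∀ l : ℕ, 1 ≤ l →
  (∀ x ∈ A l, Symm F.o (2 * l) x → itc F l x = 0) → ∀ y ∈ A (2 * l - 1),
  ∑ u : List.Vector I (2 * l - 1), sgw K F.o u.1 *
    (op F.η (2 * l - 1) y * Sp F.o (1 : Matrix I I K) (2 * l - 1)) u u = 0

/-- SPJ: functoriality. -/
def T_SPJ : Prop := ∀ (K : Type) [Field K] (I J M : Type) [Fintype I] [DecidableEq I] [Fintype J]
  [DecidableEq J] [Fintype M] [DecidableEq M] (n : ℕ),
  (∀ (o : M → Bool) (j : Matrix I J K) (g : Matrix J M K),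
    Jm j n * Sp o g n = Sp o (j * g) n) ∧
  (∀ (o' : J → Bool) (o : M → Bool) (g : Matrix I J K) (i : Matrix J M K),
    (∀ b a, i b a ≠ 0 → o' b = o a) → Sp o' g n * Jm i n = Sp o (g * i) n)

/-- SPT: the supertrace of the symmetrizer. -/
def T_SPT : Prop := ∀ (K : Type) [Field K] (I : Type) [Fintype I] [DecidableEq I] (o : I → Bool)
  (n : ℕ), ∑ u : List.Vector I n, sgw K o u.1 * sp o (1 : Matrix I I K) u.1 u.1 =
    ∏ k ∈ Finset.range n, ((∑ a, sg K (o a)) + (k : K))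

/-! ### The Weil cohomology -/

/-- SPA: the powers of a projector, symmetrized, are algebraic. -/
def T_SPA : Prop := ∀ (K : Type) [Field K] [CharZero K] (W : Weil K), W.Theory →
  ∀ (m : ℕ) (T : W.Var m) (P : W.Powers T), ∀ f ∈ W.cyc T T 0, ∀ n : ℕ,
  P.symPow f n ∈ W.cyc (P.pow n) (P.pow n) 0

/-- NTR: from the system to the powers of `T`. -/
def T_NTR : Prop := ∀ (K : Type) [Field K] [CharZero K] (W : Weil K), W.Theory →
  ∀ (m : ℕ) (T : W.Var m) (P : W.Powers T) (ρ : W.Hom T T), ρ ∈ W.cyc T T 0 → ρ * ρ = ρ →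
  ∀ (U : Submodule K (W.H T)) (n n' : ℕ) (D : Adapt (W.deg T) P.form ρ U n n') (N : ℕ),
  (∀ y ∈ pull D.j P.toPowerData.classes N, ∑ u : List.Vector (Fin n ⊕ Fin n') N,
    sgw K D.F.o u.1 * (op D.F.η N y *
      Sp D.F.o (1 : Matrix (Fin n ⊕ Fin n') (Fin n ⊕ Fin n') K) N) u u = 0) →
  W.NumTrivial (P.pow N) (P.symPow ρ N)

/-- NTN: the lower powers are not numerically trivial. -/
def T_NTN : Prop := ∀ (K : Type) [Field K] [CharZero K] (W : Weil K), W.Theory →
  ∀ (m : ℕ) (T : W.Var m) (P : W.Powers T) (ρ : W.Hom T T), ρ ∈ W.cyc T T 0 → ρ * ρ = ρ →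
  ∀ (U : Submodule K (W.H T)) (n n' : ℕ) (D : Adapt (W.deg T) P.form ρ U n n'),
  W.str ρ = D.F.sd ∧ ∀ N b : ℕ, D.F.sd = -(b : K) → N ≤ b →
    ¬ W.NumTrivial (P.pow N) (P.symPow ρ N)

/-- CPR: the sign conjecture in terms of the ranks. -/
def T_CPR : Prop := ∀ (K : Type) [Field K] [CharZero K] (W : Weil K), W.Theory →
  ∀ (V : W.Var 0) (L : W.Hom V V), L ∈ W.Lef V → ∀ (r m : ℕ) (T : W.Var m)
  (S : W.Symplectic V L r T), ∀ ε ∈ W.cyc T T 0, ε * ε = ε →
  (∀ u, W.Vanishing S.toGenericIntersection u → W.ap ε u = 0) →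
  (∀ f ∈ W.cyc T T 0, (∀ u, W.Vanishing S.toGenericIntersection u → W.ap f u = 0) →
    W.str (f * (1 - ε)) = 0) →
  ∀ b : ℕ, W.str (1 - ε) = -(b : K) → (W.Cplus T ↔ (1 - ε).rank = b)

/-- THM: the numerical motive of `T` is finite-dimensional. -/
def T_THM : Prop := ∀ (K : Type) [Field K] [CharZero K] (W : Weil K), W.Theory →
  ∀ (V : W.Var 0) (L : W.Hom V V), L ∈ W.Lef V → ∀ (r m : ℕ) (T : W.Var m)
  (S : W.Symplectic V L r T),
  ∃ ε ∈ W.cyc T T 0, (∃ c ∈ W.cyc V V (-(r : ℤ)), ε = W.comp (W.comp S.up c) S.down) ∧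
    ε * ε = ε ∧ εᵀ * S.powers.form = S.powers.form * ε ∧
    (∀ u, W.Vanishing S.toGenericIntersection u → W.ap ε u = 0) ∧
    (∀ f ∈ W.cyc T T 0, (∀ u, W.Vanishing S.toGenericIntersection u → W.ap f u = 0) →
      W.str (f * (1 - ε)) = 0) ∧
    (∀ n : ℕ, S.powers.symPow (1 - ε) n ∈ W.cyc (S.powers.pow n) (S.powers.pow n) 0) ∧
    ∃ b : ℕ, Even b ∧ W.str (1 - ε) = -(b : K) ∧
      W.NumTrivial (S.powers.pow (b + 1)) (S.powers.symPow (1 - ε) (b + 1)) ∧
      (∀ n ≤ b, ¬ W.NumTrivial (S.powers.pow n) (S.powers.symPow (1 - ε) n)) ∧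
      (W.Cplus T ↔ (1 - ε).rank = b)

end Pool.Agent.H2.KM
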