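import Pool.Agent.H2.NL.Targets2

/-!
# Super-symmetric powers modulo numerical equivalence: definitions
-/

set_option autoImplicit false

open Matrix Pool.Agent.H2.NL

namespace Pool.Agent.H2.KM

section words

variable {K : Type} [Field K] {I J : Type}

/-- the word `w` with the letters at the places `j` and `j + 1` exchanged -/
def ex {α : Type} : ℕ → List α → List α
  | 0, a :: b :: l => b :: a :: l
  | 0, [a] => [a]
  | 0, [] => []
  | j + 1, a :: l => a :: ex j l
  | _ + 1, [] => []

/-- iterated exchanges -/
def exs {α : Type} (js : List ℕ) (w : List α) : List α := js.foldr (fun j w => ex j w) w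

/-- the Koszul sign of the exchange of the places `j` and `j + 1` -/
def sgx (K : Type) [Field K] {I : Type} (o : I → Bool) : ℕ → List I → K
  | 0, a :: b :: _ => ks K (o a) (o b)
  | 0, [_] => 1
  | 0, [] => 1
  | j + 1, _ :: l => sgx K o j l
  | _ + 1, [] => 1

/-- the Koszul sign of moving the letter `a` over the word `u` -/
def sgp (K : Type) [Field K] {I : Type} (o : I → Bool) (a : I) (u : List I) : K :=
  (u.map fun c => ks K (o a) (o c)).prod

/-- the letters of a word, each with the Koszul sign of moving it to the first place, and with the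
rest of the word -/
def sel (K : Type) [Field K] {I : Type} (o : I → Bool) : List I → List (K × I × List I)
  | [] => []
  | b :: v => (1, b, v) :: (sel K o v).map fun x => (ks K (o b) (o x.2.1) * x.1, x.2.1, b :: x.2.2)

/-- the matrix entry `(u, v)` of the sum of the permutations, with Koszul signs, composed with
`f ⊗ … ⊗ f`; `o` is the parity of the letters of `v` -/
def sp (o : J → Bool) (f : Matrix I J K) : List I → List J → K
  | [], [] => 1
  | [], _ :: _ => 0
  | a :: u, v => ((sel K o v).map fun x => x.1 * f a x.2.1 * sp o f u x.2.2).sum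

/-- the same as a matrix -/
def Sp (o : J → Bool) (f : Matrix I J K) (n : ℕ) :
    Matrix (List.Vector I n) (List.Vector J n) K := Matrix.of fun u v => sp o f u.1 v.1

/-- the exchange of the places `j` and `j + 1`, as a matrix -/
def Px (K : Type) [Field K] {I : Type} [DecidableEq I] (o : I → Bool) (n j : ℕ) :
    Matrix (List.Vector I n) (List.Vector I n) K :=
  Matrix.of fun u v => if ex j u.1 = v.1 then sgx K o j u.1 else 0

/-- a tensor `x` with upper and lower places gives tensors on words: the pattern `s` says which
places are upper (`true`) -/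
def Gp (o : I → Bool) : List Bool → (List I → List I → K) → List I → K
  | [], x, [] => x [] []
  | [], _, _ :: _ => 0
  | true :: s, x, a :: w => Gp o s (fun u v => x (a :: u) v) w
  | false :: s, x, a :: w => Gp o s (fun u v => sgp K o a u * x u (a :: v)) w
  | _ :: _, _, [] => 0

/-- `x` is symmetric in the upper places, and in the lower places -/
structure GS (o : I → Bool) (x : List I → List I → K) : Prop where
  up : ∀ (j : ℕ) (u v : List I), sw o j (fun u => x u v) u = x u v
  lo : ∀ (j : ℕ) (u v : List I), sw o j (fun v => x u v) v = x u v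

/-- the pattern with `s` pairs upper, upper, and `m` pairs upper, lower -/
def pat : ℕ → ℕ → List Bool
  | s + 1, m => true :: true :: pat s m
  | 0, m + 1 => true :: false :: pat 0 m
  | 0, 0 => []

variable [Fintype I] [DecidableEq I] (F : Form K I)

/-- the contraction of two upper places -/
def opA (x : List I → List I → K) (u v : List I) : K := ∑ e, F.c e * x (e :: F.st e :: u) v

/-- the contraction of two lower places -/
def opB (x : List I → List I → K) (u v : List I) : K := ∑ e, F.c e * x u (e :: F.st e :: v)

/-- the contraction of an upper and a lower place -/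
def opC (x : List I → List I → K) (u v : List I) : K :=
  ∑ e, F.c e * sgp K F.o e u * x (e :: u) (F.st e :: v)

/-- the contraction for a pair of places -/
def pick : Bool → Bool → (List I → List I → K) → List I → List I → K
  | true, true => opA F
  | false, false => opB F
  | true, false => opC F
  | false, true => opC F

/-- the number obtained by `j` contractions of upper places, `i` of lower places, and `k` mixed
contractions -/
def val (j i k : ℕ) (x : List I → List I → K) : K :=
  ((opC F)^[k] ((opB F)^[i] ((opA F)^[j] x))) [] []

/-- all the tensors given by `x` and patterns with `p` upper and `q` lower places belong to `B` -/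
def MA (o : I → Bool) (B : Set (List I → K)) (p q : ℕ) (x : List I → List I → K) : Prop :=
  ∀ s : List Bool, s.count true = p → s.count false = q → Gp o s x ∈ B

end words

/-! ### Basic lemmas -/

section basic

variable {K : Type} [Field K] {I : Type} (o : I → Bool)

theorem ks_sq (p q : Bool) : ks K p q * ks K p q = 1 := by
  unfold ks; split_ifs <;> simp

theorem ks_comm (p q : Bool) : ks K p q = ks K q p := by
  unfold ks; cases p <;> cases q <;> simp

theorem sw_eq : ∀ (j : ℕ) (t : List I → K) (w : List I), sw o j t w = sgx K o j w * t (ex j w)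
  | 0, t, a :: b :: l => rfl
  | 0, t, [a] => by simp [sw, sgx, ex]
  | 0, t, [] => by simp [sw, sgx, ex]
  | j + 1, t, a :: l => sw_eq j (fun l' => t (a :: l')) l
  | _ + 1, t, [] => by simp [sw, sgx, ex]

theorem ex_length {α : Type} : ∀ (j : ℕ) (w : List α), (ex j w).length = w.length
  | 0, a :: b :: l => rfl
  | 0, [a] => rfl
  | 0, [] => rfl
  | j + 1, a :: l => by simp [ex, ex_length j l]
  | _ + 1, [] => rfl

theorem ex_ex {α : Type} : ∀ (j : ℕ) (w : List α), ex j (ex j w) = w
  | 0, a :: b :: l => rfl
  | 0, [a] => rfl
  | 0, [] => rfl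
  | j + 1, a :: l => by simp [ex, ex_ex j l]
  | _ + 1, [] => rfl

theorem ex_perm {α : Type} : ∀ (j : ℕ) (w : List α), (ex j w).Perm w
  | 0, a :: b :: l => List.Perm.swap a b l
  | 0, [a] => List.Perm.refl _
  | 0, [] => List.Perm.refl _
  | j + 1, a :: l => (ex_perm j l).cons a
  | _ + 1, [] => List.Perm.refl _

theorem sgx_ex : ∀ (j : ℕ) (w : List I), sgx K o j (ex j w) = sgx K o j w
  | 0, a :: b :: l => ks_comm (K := K) (o b) (o a)
  | 0, [a] => rfl
  | 0, [] => rfl
  | j + 1, a :: l => sgx_ex j l
  | _ + 1, [] => rfl

theorem sgx_sq : ∀ (j : ℕ) (w : List I), sgx K o j w * sgx K o j w = 1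
  | 0, a :: b :: l => ks_sq _ _
  | 0, [a] => by simp [sgx]
  | 0, [] => by simp [sgx]
  | j + 1, a :: l => sgx_sq j l
  | _ + 1, [] => by simp [sgx]

theorem sgp_perm (a : I) {u u' : List I} (h : u.Perm u') : sgp K o a u = sgp K o a u' :=
  (h.map _).prod_eq

theorem sgp_sq (a : I) : ∀ u : List I, sgp K o a u * sgp K o a u = 1
  | [] => by simp [sgp]
  | c :: u => by
    have h := sgp_sq a u
    have h' := ks_sq (K := K) (o a) (o c)
    simp only [sgp, List.map_cons, List.prod_cons] at h ⊢
    calc _ = (ks K (o a) (o c) * ks K (o a) (o c)) *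
        ((u.map fun c => ks K (o a) (o c)).prod * (u.map fun c => ks K (o a) (o c)).prod) := by ring
      _ = 1 := by rw [h, h', one_mul]

theorem sgp_cons (a c : I) (u : List I) :
    sgp K o a (c :: u) = ks K (o a) (o c) * sgp K o a u := by simp [sgp]

theorem sgp_nil (a : I) : sgp K o a [] = 1 := rfl

end basic

end Pool.Agent.H2.KM

namespace Pool.Agent.H64.CC.Weil

open Pool.Agent.H2.NL Pool.Agent.H2.KM

variable {K : Type} [Field K] [CharZero K] {W : Weil K}

/-- the endomorphism `∑ σ (f ⊗ … ⊗ f)` of `H(T ^ n) = H(T) ^ (⊗ n)`, the sum over all permutations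
`σ` of the `n` factors, which act with Koszul signs: `n!` times the projector on the
super-symmetric power `Sym ^ n (f H(T))`, if `f` is a projector -/
def PowerData.symPow {m : ℕ} {T : W.Var m} (P : W.PowerData T) (f : W.Hom T T) (n : ℕ) :
    W.Hom (P.pow n) (P.pow n) :=
  Matrix.of fun a b => sp (W.par T) f (P.word n a) (P.word n b)

end Pool.Agent.H64.CC.Weil
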