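import Pool.Agent.H2.KM.Rows
import Pool.Agent.H64.NLW.Uncond
import Pool.Agent.H2.NL.Final

/-!
# The numerical motive of a generic complete intersection: the final assembly
-/

set_option autoImplicit false

open Matrix Pool.Agent.H64.CC Pool.Agent.H64.NLW Pool.Agent.H2.NL

namespace Pool.Agent.H64.CC.Weil

variable {K : Type} [Field K] [CharZero K] (W : Weil K)

/-- `ε` is an algebraic idempotent of the motive of the generic complete intersection `T`, equal to
its transpose, which comes from an algebraic correspondence `c` of `V` (so `(T, ε)` is a direct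
factor of the motive of `V`), and it is the greatest one modulo numerical equivalence: for all
algebraic `f` of degree 0 which are 0 on the vanishing classes, `f (1 - ε)` has alternating
trace 0 -/
structure Constant {m : ℕ} {V : W.Var 0} {L : W.Hom V V} {r : ℕ} {T : W.Var m}
    (S : W.Symplectic V L r T) (ε : W.Hom T T) : Prop where
  mem : ε ∈ W.cyc T T 0
  factor : ∃ c ∈ W.cyc V V (-(r : ℤ)), ε = W.comp (W.comp S.up c) S.down
  idem : W.comp ε ε = ε
  self_adjoint : εᵀ * S.powers.form = S.powers.form * ε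
  greatest : ∀ f ∈ W.cyc T T 0, (∀ u, W.Vanishing S.toGenericIntersection u → W.ap f u = 0) →
    W.str (W.comp f (W.id T - ε)) = 0

/-- the part `R = (T, 1 - ε)` of the motive of `T` is odd and finite-dimensional modulo numerical
equivalence, of dimension `b`: the alternating trace of `1 - ε` is `-b`, the endomorphisms
`symPow (1 - ε) n`, which are `n!` times the projectors on the symmetric powers of `R`, are algebraic,
this one is numerically trivial for `n = b + 1`, and it is not numerically trivial for `n ≤ b`;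
moreover `b` is even -/
structure OddFinite {m : ℕ} {V : W.Var 0} {L : W.Hom V V} {r : ℕ} {T : W.Var m}
    (S : W.Symplectic V L r T) (ε : W.Hom T T) (b : ℕ) : Prop where
  even : Even b
  str : W.str (W.id T - ε) = -(b : K)
  algebraic : ∀ n : ℕ,
    S.powers.symPow (W.id T - ε) n ∈ W.cyc (S.powers.pow n) (S.powers.pow n) 0
  trivial : W.NumTrivial (S.powers.pow (b + 1)) (S.powers.symPow (W.id T - ε) (b + 1))
  not_trivial : ∀ n ≤ b, ¬ W.NumTrivial (S.powers.pow n) (S.powers.symPow (W.id T - ε) n)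

/-- numerical and homological equivalence coincide on the classes `symPow (1 - ε) n` -/
def SymD {m : ℕ} {V : W.Var 0} {L : W.Hom V V} {r : ℕ} {T : W.Var m}
    (S : W.Symplectic V L r T) : Prop :=
  ∀ ε, W.Constant S ε → ∀ n : ℕ,
    W.NumTrivial (S.powers.pow n) (S.powers.symPow (W.id T - ε) n) →
    S.powers.symPow (W.id T - ε) n = 0

end Pool.Agent.H64.CC.Weil

namespace Pool.Agent.H2.KM

variable {K : Type} [Field K] [CharZero K] (W : Weil K) (hW : W.Theory)

theorem kill {V : W.Var 0} {L : W.Hom V V} {r m : ℕ} {T : W.Var m} (S : W.Symplectic V L r T)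
    {ε : W.Hom T T} (h : ∃ c ∈ W.cyc V V (-(r : ℤ)), ε = W.comp (W.comp S.up c) S.down) :
    ∀ u, W.Vanishing S.toGenericIntersection u → W.ap ε u = 0 := by
  obtain ⟨c, -, rfl⟩ := h
  intro u hu
  have h1 : S.down *ᵥ u = 0 := hu.2
  show (S.up * c * S.down) *ᵥ u = 0
  rw [← Matrix.mulVec_mulVec, h1, Matrix.mulVec_zero]

include hW in
/-- the Künneth components of `ε` are algebraic -/
theorem pj_mem {V : W.Var 0} {L : W.Hom V V} {r m : ℕ} {T : W.Var m} (S : W.Symplectic V L r T)
    {ε : W.Hom T T} (h : ∃ c ∈ W.cyc V V (-(r : ℤ)), ε = W.comp (W.comp S.up c) S.down) (j : ℕ) :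
    W.comp (W.pj T j) ε ∈ W.cyc T T 0 := by
  obtain ⟨c, hc, rfl⟩ := h
  have hVj : W.pj V j ∈ W.cyc V V 0 := hW.katzMessing V j
  have hup : W.pj T j * S.up = S.up * W.pj V j := Pool.Agent.H64.NLW.pj_comm W S.up S.up_deg j
  have h1 : W.comp (W.pj T j) (W.comp (W.comp S.up c) S.down) =
      W.comp (W.comp S.up (W.comp (W.pj V j) c)) S.down := by
    show W.pj T j * (S.up * c * S.down) = S.up * (W.pj V j * c) * S.down
    rw [← Matrix.mul_assoc, ← Matrix.mul_assoc, hup]
    simp only [Matrix.mul_assoc]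
  rw [h1]
  refine S.restrict _ ?_
  have h2 := hW.calculus.comp_mem V V V (-(r : ℤ)) 0 c hc (W.pj V j) hVj
  rw [add_zero] at h2
  exact h2

include hW in
/-- the symmetrized power of a projector is zero, if it is numerically trivial and there are no
phantoms -/
theorem sym_zero {m : ℕ} {T : W.Var m} (P : W.Powers T) {ρ : W.Hom T T} (hρc : ρ ∈ W.cyc T T 0)
    (hρρ : ρ * ρ = ρ) (n : ℕ) (hnum : W.NumTrivial (P.pow n) (P.symPow ρ n))
    (hno : W.NoPhantom (P.pow n)) : P.symPow ρ n = 0 := by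
  have hdeg : ∀ a b, ρ a b ≠ 0 → W.deg T a = W.deg T b := by
    intro a b hab
    have := hW.calculus.cyc_deg T T 0 ρ hρc a b hab
    omega
  have hpar : ∀ a b, ρ a b ≠ 0 → W.par T a = W.par T b := by
    intro a b hab
    unfold Weil.par
    rw [hdeg a b hab]
  obtain ⟨Pn, hPn⟩ : ∃ Pn : W.Hom (P.pow n) (P.pow n), Pn = P.symPow ρ n := ⟨_, rfl⟩
  rw [← hPn] at hnum ⊢
  have hPc : Pn ∈ W.cyc (P.pow n) (P.pow n) 0 := by
    rw [hPn]
    exact k_SPA K W hW m T P ρ hρc n
  obtain ⟨σ, hσ⟩ : ∃ σ : Fin (W.rk (P.pow n)) ≃ List.Vector (Fin (W.rk T)) n,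
      ∀ a, (σ a).1 = P.word n a := by
    refine ⟨Equiv.ofBijective (fun a => ⟨P.word n a, (P.word_range n _).1 ⟨a, rfl⟩⟩)
      ⟨fun a b h => P.word_inj n (congrArg Subtype.val h), fun v => ?_⟩, fun a => rfl⟩
    obtain ⟨a, ha⟩ := (P.word_range n v.1).2 v.2
    exact ⟨a, Subtype.ext ha⟩
  have hPs : Pn = (Sp (W.par T) ρ n).submatrix σ σ := by
    rw [hPn]
    ext a b
    show sp (W.par T) ρ (P.word n a) (P.word n b) = sp (W.par T) ρ (σ a).1 (σ b).1
    rw [hσ, hσ]
  have hPP : Pn * Pn = (n.factorial : K) • Pn := by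
    have e1 := k_IDP K (Fin (W.rk T)) (W.par T) ρ hpar hρρ n
    rw [hPs, Matrix.submatrix_mul_equiv, e1]
    rfl
  have hn : (n.factorial : K) ≠ 0 := Nat.cast_ne_zero.2 (Nat.factorial_ne_zero n)
  obtain ⟨e, he⟩ : ∃ e : W.Hom (P.pow n) (P.pow n), e = ((n.factorial : K)⁻¹) • Pn := ⟨_, rfl⟩
  have hec : e ∈ W.cyc (P.pow n) (P.pow n) 0 := by
    have e1 : e = ((n.factorial : ℚ)⁻¹) • Pn := by
      rw [he]
      ext a b
      rw [Matrix.smul_apply, Matrix.smul_apply, Rat.smul_def, smul_eq_mul]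
      push_cast
      rfl
    rw [e1]
    exact (W.cyc _ _ 0).smul_mem _ hPc
  have hee : e * e = e := by
    rw [he, Matrix.smul_mul, Matrix.mul_smul, hPP, smul_smul (n.factorial : K)⁻¹
      (n.factorial : K), inv_mul_cancel₀ hn, one_smul]
  have hnt : W.NumTrivial (P.pow n) e := by
    intro g hg
    have e1 : W.comp g e = ((n.factorial : K)⁻¹) • (W.comp g Pn) := by
      show g * e = ((n.factorial : K)⁻¹) • (g * Pn)
      rw [he, Matrix.mul_smul]
    rw [e1, str_smul, hnum g hg, mul_zero]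
  have h0 := hno e hec hee hnt
  rw [he] at h0
  rcases smul_eq_zero.1 h0 with h | h
  · exact absurd h (inv_ne_zero hn)
  · exact h

theorem numTrivial_zero {n : ℕ} (X : W.Var n) : W.NumTrivial X (0 : W.Hom X X) := by
  intro g _
  have h : W.comp g (0 : W.Hom X X) = 0 := by
    show g * (0 : W.Hom X X) = 0
    exact mul_zero g
  rw [h]
  unfold Weil.str
  exact Finset.sum_eq_zero fun a _ => by rw [Matrix.zero_apply, mul_zero]

include hW in
/-- **The numerical motive of a generic complete intersection of odd dimension is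
finite-dimensional.** -/
theorem numerical_motive {V : W.Var 0} {L : W.Hom V V} (hL : L ∈ W.Lef V) {r m : ℕ} {T : W.Var m}
    (S : W.Symplectic V L r T) : ∃ ε, W.Constant S ε ∧
      (∀ j : ℕ, W.comp (W.pj T j) ε ∈ W.cyc T T 0) ∧
      ∃ b : ℕ, W.OddFinite S ε b ∧
        List.TFAE [
          W.Cplus T,
          (W.id T - ε).rank = b,
          S.powers.symPow (W.id T - ε) (b + 1) = 0,
          ∃ n : ℕ, S.powers.symPow (W.id T - ε) n = 0,
          W.NoPhantom (S.powers.pow (b + 1))] := by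
  obtain ⟨ε, h1, h2, h3, h4, h5, h6, h7, b, h8, h9, h10, h11, h12⟩ :=
    k_THM K W hW V L hL r m T S
  refine ⟨ε, ⟨h1, h2, h3, h4, h6⟩, pj_mem W hW S h2, b, ⟨h8, h9, h7, h10, h11⟩, ?_⟩
  tfae_have 1 ↔ 2 := h12
  tfae_have 1 ↔ 3 := k_CPS K W hW V L hL r m T S ε h1 h3 h5 (b + 1) h10
  tfae_have 3 → 4 := fun h => ⟨b + 1, h⟩
  tfae_have 4 → 1 := by
    rintro ⟨n, hn⟩
    refine (k_CPS K W hW V L hL r m T S ε h1 h3 h5 n ?_).2 hn
    have e : S.powers.symPow (1 - ε) n = 0 := hn
    rw [e]
    exact numTrivial_zero W _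
  tfae_have 1 → 5 := fun h => (r_NIL K W hW m (S.powers.pow (b + 1))).2
    ((r_NIL K W hW m (S.powers.pow (b + 1))).1 (r_CPW K W hW m T S.powers h (b + 1)))
  tfae_have 5 → 3 := fun h => sym_zero W hW S.powers
    ((W.cyc T T 0).sub_mem (hW.calculus.one_mem T) h1) (by
      show (1 - ε) * (1 - ε) = 1 - ε
      rw [mul_sub, mul_one, sub_mul, one_mul, show ε * ε = ε from h3, sub_self, sub_zero])
    (b + 1) h10 h
  tfae_finish

include hW in
/-- the sign conjecture for `T` is the conjecture `D` for the symmetrized powers of the part of the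
motive of `T` which does not come from `V` -/
theorem sym_iff {V : W.Var 0} {L : W.Hom V V} (hL : L ∈ W.Lef V) {r m : ℕ} {T : W.Var m}
    (S : W.Symplectic V L r T) : W.Cplus T ↔ W.SymD S := by
  constructor
  · intro h ε hε n hn
    exact (k_CPS K W hW V L hL r m T S ε hε.mem hε.idem (kill W S hε.factor) n hn).1 h
  · intro h
    obtain ⟨ε, hε, -, b, h1, h2⟩ := numerical_motive W hW hL S
    exact (h2.out 2 0).1 (h ε hε (b + 1) h1.trivial)

include hW in
/-- all varieties -/
theorem sym_global (hS : W.OddSections) (hM : W.Models) :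
    List.TFAE [
      ∀ (V : W.Var 0) (L : W.Hom V V), L ∈ W.Lef V → ∀ (r m : ℕ) (T : W.Var m)
        (S : W.Symplectic V L r T), W.SymD S,
      ∀ Z : W.Var 0, W.B Z,
      ∀ (n : ℕ) (X : W.Var n), W.Cplus X,
      ∀ (n : ℕ) (X : W.Var n), W.C X ∧ W.B X] := by
  have hall := all_tfae W hW r_LOC r_CPW r_NIL hS hM
  tfae_have 3 ↔ 2 := hall.out 0 3
  tfae_have 3 ↔ 4 := hall.out 0 4
  tfae_have 3 → 1 := fun H V L hL r m T S => (sym_iff W hW hL S).1 (H m T)
  tfae_have 1 → 2 := by
    intro H Z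
    refine ((var_tfae W hW r_LOC r_CPW r_NIL hS Z).out 2 0).1 ?_
    intro L hL r m hr T S
    exact (sym_iff W hW hL S).2 (H (W.prod Z Z) L hL r m T S)
  tfae_finish

end Pool.Agent.H2.KM
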