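import Pool.Agent.H2.KM.Targets

/-!
# Targets: the explicit class
-/

set_option autoImplicit false

open Matrix Pool.Agent.H2.NL Pool.Agent.H64.CC

namespace Pool.Agent.H2.KM

/-- IDP: the symmetrizer of a projector is a projector, up to the factor `n!`. -/
def T_IDP : Prop := ∀ (K : Type) [Field K] (I : Type) [Fintype I] [DecidableEq I] (o : I → Bool)
  (f : Matrix I I K), (∀ a b, f a b ≠ 0 → o a = o b) → f * f = f → ∀ n : ℕ,
  Sp o f n * Sp o f n = (n.factorial : K) • Sp o f n

/-- CPS: the sign conjecture is the vanishing of one class. -/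
def T_CPS : Prop := ∀ (K : Type) [Field K] [CharZero K] (W : Weil K), W.Theory →
  ∀ (V : W.Var 0) (L : W.Hom V V), L ∈ W.Lef V → ∀ (r m : ℕ) (T : W.Var m)
  (S : W.Symplectic V L r T), ∀ ε ∈ W.cyc T T 0, ε * ε = ε →
  (∀ u, W.Vanishing S.toGenericIntersection u → W.ap ε u = 0) →
  ∀ n : ℕ, W.NumTrivial (S.powers.pow n) (S.powers.symPow (1 - ε) n) →
  (W.Cplus T ↔ S.powers.symPow (1 - ε) n = 0)

end Pool.Agent.H2.KM
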